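import Pool.Agent.Run7.h383.SA.Fam

/-!
# MP_dd1803_nt: Zilber-Pink in split semiabelian varieties for ALL BUT FINITELY MANY integral members of
arbitrary one-parameter families with enough degenerate members

**The ambient variety.** Let `E_i : y² = x³ + A_i x + B_i`, `i = 1, …, n`, be elliptic curves over the
field of algebraic numbers and let `𝔖 = E_1^(q_1) × … × E_n^(q_n) × G_m^k` (`Amb`), of dimension
`q_1 + … + q_n + k`, with the coordinates `x(P_{i,a})` and `u_b`.

**The families.** Let `F` be an arbitrary finite system of polynomials in these coordinates and `N`
auxiliary coordinates with coefficients in `ℚ̄[t]`. The member `X_t ⊂ 𝔖` (`MemberS`) consists of the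
points `(P, u)` with all `P_{i,a}` different from the origin for which all equations, with the
coefficients evaluated at `t`, hold for some values of the auxiliary coordinates. So `(X_t)` is an
arbitrary one-parameter family of subvarieties of `𝔖`, of any dimension, which are stable under the
signs of the `P_{i,a}` (minus the divisors where some `P_{i,a}` is the origin), or of images of varieties.

**The condition.** Let `m` be an integer, the dimension of the `X_t`. For a rational number `α` the
tropicalization at `α` is the set of the points `w` of `(ℚ ∪ {∞})^(coordinates)` such that for every
polynomial of the system the minimum of the numbers `ord_α (coefficient) + β · w`, over the exponents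
`β` of its monomials, is attained at two different exponents or is infinite (`TropAt`, `ord`). Let `T` be
a set of coordinates of `𝔖` and `ρ ≥ 0`. A list `a_1, …, a_L` of rational numbers with the moduli
`M_1, …, M_L` covers `(T, ρ)` (`Covers`) if there are values `τ_l` for the coordinates in `T` such that for
all points `w_l` of the tropicalizations at `a_l` with these values, and finite values of the `u_b`, the
following holds (`IndepM`): there are a set `J` of indices `(i, a)`, an `l = c(i)` for every `i`, and a
set `R` of `l` such that

* `|J| + |R| > dim 𝔖 - ρ`;
* `w_l(x(P_{i,a})) < - 1/2` for `(i, a) ∈ J` and `l = c(i)`, and the denominator of the difference of two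
  such values with the same `i` is divisible by `M_l` (`M_l = 0`: there is at most one for every `i`);
* the vectors `(w_l(u_1), …, w_l(u_k))`, `l ∈ R`, are linearly independent.

**Theorem.** Suppose that every `(T, ρ)` with `|T| + ρ = m + 1` is covered by two disjoint lists of
elements of a finite set `D`, the first one with moduli `≥ 3` or `0`, the second one with moduli `≥ 2` or
`0`, or by three disjoint lists with even moduli (`Enough`). Then for every positive integer `s` the
member `X_t` has no atypical intersection with algebraic subgroups of `𝔖` for **all but finitely many**
numbers `t ∈ ℤ[1/s]`, in particular for all but finitely many integers `t`: for every `ρ` every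
irreducible constructible subset of the intersection of `X_t` with the union of the algebraic subgroups
of codimension at least `ρ` has dimension at most `m - ρ`, and the points of this intersection have
transcendence degree at most `m - ρ` over `ℚ` (`NoAtypicalS`).

An algebraic subgroup of `𝔖` of codimension `ρ` is given, up to torsion, by modules of relations
`∑_a c_a P_{i,a} = 0` over the rings of endomorphisms of the `E_i`, also for curves with complex
multiplication, and a group of multiplicative relations between the `u_b`, if the `E_i` are pairwise not
isogenous: `ρ` is the sum of the ranks (`InSpecial`, as in the starting file `RandomMaps`).

For the torus and for products with modular curves there are similar theorems on almost all members of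
one-parameter families; with abelian factors the starting results of this page are about positive
proportions of all coefficient vectors, random orbits, or translates. The difficulty is that the values
of the endomorphisms at a place above `p` are multiples of `v(p)/2`, so that one needs information on
the orders of `t - α` at large primes, which are expected to be `1` for many primes, but this is not
known for all integers `t`. Here it is shown that it suffices that one of these orders is not divisible
by a modulus `M`, since the condition is stable under the multiplication of the tropicalizations by
`k` if `M` does not divide `k`. Otherwise `t - α = c y^M` and `t - β = c' z^(M')`, or `t - α`, `t - β`,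
`t - γ` are squares up to finitely many factors, which holds for finitely many `t ∈ ℤ[1/s]` only by the
theorem of Siegel and LeVeque (unit equations over number fields, starting tree). The places of `ℂ` are
constructed in the starting tree for our results on `MP_28d749_ag`, where the powers of one elliptic
scheme are treated; new here are several curves, the torus and the lists of places.
-/

set_option autoImplicit false

namespace Pool.Agent.Results.MP_dd1803_nt.IntegralMembers

open Run7.h383.SA

/-- **Zilber-Pink for all but finitely many integral members** of arbitrary one-parameter families of
subvarieties of split semiabelian varieties with enough degenerate members. -/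
theorem result (κ : Type) [Finite κ] (n k N m : ℕ) (q : Fin n → ℕ) (A B : Fin n → ℂ)
    (hA : ∀ i, IsAlgebraic ℚ (A i)) (hB : ∀ i, IsAlgebraic ℚ (B i))
    (F : κ → MvPolynomial (Ind q k ⊕ Fin N) (Polynomial (algebraicClosure ℚ ℂ)))
    (D : Finset ℚ) (hD : Enough m F D) (s : ℕ) (hs : s ≠ 0) :
    {t : ℚ | (∃ (k : ℕ) (a : ℤ), (s : ℚ) ^ k * t = a) ∧
      ¬ NoAtypicalS m (MemberS F (t : ℂ) : Amb A B q k → Prop)}.Finite :=
  members hA hB F D m hD s hs

end Pool.Agent.Results.MP_dd1803_nt.IntegralMembers
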