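import Pool.Agent.Run7.h383.SA.Fam
import Pool.Agent.Run7.h383.PK.Pow

/-!
# MP_dd1803_nt: Zilber-Pink in split semiabelian varieties for all rational members of arbitrary
one-parameter families outside finitely many classes of `M`-th powers

**The ambient variety.** Let `E_i : y² = x³ + A_i x + B_i`, `i = 1, …, n`, be elliptic curves over the
field of algebraic numbers and let `𝔖 = E_1^(q_1) × … × E_n^(q_n) × G_m^k` (`Amb`), of dimension
`q_1 + … + q_n + k`, with the coordinates `x(P_{i,a})` and `u_b`.

**The families.** Let `F` be an arbitrary finite system of polynomials in these coordinates and `N`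
auxiliary coordinates with coefficients in `ℚ̄[t]`. The member `X_t ⊂ 𝔖` (`MemberS`) consists of the
points `(P, u)` with all `P_{i,a}` different from the origin for which all equations, with the
coefficients evaluated at `t`, hold for some values of the auxiliary coordinates. So `(X_t)` is an
arbitrary one-parameter family of subvarieties of `𝔖`, of any dimension, which are stable under the
signs of the `P_{i,a}` (minus the divisors where some `P_{i,a}` is the origin), or of images of varieties.

**The condition** (`Covered`). Let `D` be a finite set of rational numbers, `m` an integer, the dimension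
of the `X_t`, and `M ≥ 2`. For `α ∈ D` the tropicalization at `α` is the set of the points `w` of
`(ℚ ∪ {∞})^(coordinates)` such that for every polynomial of the system the minimum of the numbers
`ord_α (coefficient) + β · w`, over the exponents `β` of its monomials, is attained at two different
exponents or is infinite (`TropAt`, `ord`). The condition is: for every set `T` of coordinates of `𝔖` and
every `ρ ≥ 0` with `|T| + ρ = m + 1` there are a list `a_1, …, a_L` of elements of `D`, moduli `M_l`
divisible by `M` (`M_l = 0` is allowed), and values `τ_l` for the coordinates in `T`, such that for all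
points `w_l` of the tropicalizations at `a_l` with these values, and finite values of the `u_b`, there
are a set `J` of indices `(i, a)`, an `l = c(i)` for every `i`, and a set `R` of `l` with the following
properties (`Covers`, `IndepM`):

* `|J| + |R| > dim 𝔖 - ρ`;
* `w_l(x(P_{i,a})) < - 1/2` for `(i, a) ∈ J` and `l = c(i)`, and the denominator of the difference of two
  such values with the same `i` is divisible by `M_l` (`M_l = 0`: there is at most one for every `i`);
* the vectors `(w_l(u_1), …, w_l(u_k))`, `l ∈ R`, are linearly independent.

**Theorem.** Suppose that the condition is satisfied.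
1. There is a finite set `𝒞` of nonzero integers such that `X_t` has no atypical intersection with
   algebraic subgroups of `𝔖` (`NoAtypicalS`, see the hand-in `IntegralMembers`) for **every** rational
   number `t` outside of the classes `t - α = c y^M / (b v)`, with `α = a / b ∈ D`, `c ∈ 𝒞`, an integer
   `y`, and `v` the denominator of `t`.
2. There is a constant `C` such that for all `B ≥ 1` and all `1 ≤ v ≤ B` this holds for `t = u / v` for
   all but at most `C B^(1/M)` of the integers `u` with `|u| ≤ B` prime to `v`.

Here one list is needed for every `(T, ρ)`; `IntegralMembers` needs two or three disjoint lists and is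
about the numbers in `ℤ[1/s]` only, with finitely many exceptions. The algebraic subgroups of `𝔖` are
given, up to torsion, by relations over the rings of endomorphisms of the `E_i`, also for curves with
complex multiplication, and multiplicative relations between the `u_b`, if the `E_i` are pairwise not
isogenous (`InSpecial`, as in the starting file `RandomMaps`).

Proof. The condition is stable under the multiplication of the tropicalization at `a_l` by a positive
integer which `M_l` does not divide. At a large prime number which divides `t - a_l` to such an order the
coefficients have the orders at `a_l`, multiplied by this integer, and there is a place of `ℂ` above it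
with rational values at which given algebraically independent coordinates have given values (starting
tree). The values at the places for different `l` bound the ranks of the modules of relations. The
numbers `t` for which there are no such primes are in the classes.
-/

set_option autoImplicit false

namespace Pool.Agent.Results.MP_dd1803_nt.PowerClasses

open Run7.h383.SA Run7.h383.PK

/-- **Zilber-Pink for all rational members of one-parameter families of subvarieties of split
semiabelian varieties outside finitely many classes of `M`-th powers.** -/
theorem result (κ : Type) [Finite κ] (n k N m M : ℕ) (hM : 2 ≤ M) (q : Fin n → ℕ)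
    (A B : Fin n → ℂ) (hA : ∀ i, IsAlgebraic ℚ (A i)) (hB : ∀ i, IsAlgebraic ℚ (B i))
    (F : κ → MvPolynomial (Ind q k ⊕ Fin N) (Polynomial (algebraicClosure ℚ ℂ)))
    (D : Finset ℚ) (hcov : Covered m F D M) :
    (∃ 𝒞 : Finset ℤ, (∀ c ∈ 𝒞, c ≠ 0) ∧ ∀ t : ℚ,
      (∀ α ∈ D, ∀ c ∈ 𝒞, ∀ y : ℤ, t.num * α.den - α.num * t.den ≠ c * y ^ M) →
      NoAtypicalS m (MemberS F (t : ℂ) : Amb A B q k → Prop)) ∧
    ∃ C : ℝ, ∀ H : ℕ, 1 ≤ H → ∀ v : ℕ, 1 ≤ v → v ≤ H →
      ({u : ℤ | |u| ≤ H ∧ IsCoprime u (v : ℤ) ∧
        ¬ NoAtypicalS m (MemberS F ((u : ℂ) / v) : Amb A B q k → Prop)}.ncard : ℝ) ≤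
      C * (H : ℝ) ^ ((1 : ℝ) / M) := by
  obtain ⟨𝒞, h0, hmain⟩ := classes hA hB F D m M hM hcov
  refine ⟨⟨𝒞, h0, hmain⟩, ?_⟩
  obtain ⟨C, hC⟩ := count_classes D M hM 𝒞 h0
  refine ⟨C, fun H hH v hv hvH => hC H hH v hvH _ ?_⟩
  rintro u ⟨hu, hcop, hbad⟩
  refine ⟨hu, ?_⟩
  by_contra hcon
  apply hbad
  have hnum : ((u : ℚ) / v).num = u := by
    have := Rat.num_div_eq_of_coprime (a := u) (b := (v : ℤ)) (by omega)
      (Int.isCoprime_iff_nat_coprime.1 hcop)
    exact_mod_cast this
  have hden : ((u : ℚ) / v).den = v := by
    have := Rat.den_div_eq_of_coprime (a := u) (b := (v : ℤ)) (by omega)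
      (Int.isCoprime_iff_nat_coprime.1 hcop)
    exact_mod_cast this
  have h1 := hmain ((u : ℚ) / v) fun α hα c hc y hy => hcon ⟨α, hα, c, hc, y, by
    rw [hnum, hden] at hy
    exact hy⟩
  push_cast at h1
  exact h1

end Pool.Agent.Results.MP_dd1803_nt.PowerClasses
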