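import Pool.Agent.Run7.h972.AW.Freq
import Pool.Agent.Results.MP_dd1803_nt.RandomOrbits

/-!
# MP_dd1803_nt: Zilber-Pink in split semiabelian varieties along random orbits of semigroups of affine
maps of coefficient vectors, for all elliptic curves and all subvarieties simultaneously

Let `E_i : y² = x³ + A_i x + B_i` be arbitrary elliptic curves over the complex numbers and let
`𝔖 = E_1^(q_1) × … × E_n^(q_n) × G_m^k` (`Amb`), of dimension `N = q_1 + … + q_n + k`, with the
coordinates `x(P_{i,l})` and `u_w`. The starting result `RandomOrbits` (whose definitions are used)
considers the rational maps `F_c : 𝔖 ⇢ ℂ^m` whose `m` numerators and `m` denominators are polynomials of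
multidegree `D` in the coordinates with the integral coefficient vector `c`, for the vectors `c` of a
random orbit of matrices of determinant one which generate `SL_r(ℤ/q)` for all `q` prime to some `q₀`.

Here the maps are affine and need not be invertible. Let `x ↦ A_j x + b_j`, `j ≤ m`, be a finite family
of affine maps of the module `ℤ^r` of all coefficient vectors (`AffineWalk`) which for all `q` prime to some
`M` are permutations of `(ℤ/q)^r` and generate a transitive group. The determinants of the `A_j` are
arbitrary nonzero integers. For instance: random walks `x ↦ x + b_j` with steps `b_j` which generate a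
subgroup of finite index (the coefficients grow like `√t`, while those of the starting result grow
exponentially), or `x ↦ 10 x + d` (the digits of the coefficients are random). For independent and
uniformly distributed indices `w 0, w 1, …` let `c_0 = v`, `c_(t+1) = A_(w t) c_t + b_(w t)` (`aorb`).

**Theorem.** Almost surely the following is true for ALL starting vectors `v`, including `v = 0`, ALL
elliptic curves `E_1, …, E_n` over the complex numbers and ALL irreducible `V ⊆ ℂ^m` simultaneously: there
is a `δ > 0` such that for all large `N` for at least `δ N` of the first `N` vectors `c` of the random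
orbit the pull-back of `V` under `F_c` has no atypical intersections with special subvarieties: for every
`ρ` every irreducible closed subset of its intersection with the union of the algebraic subgroups of
codimension `ρ` has dimension at most `N - (m - dim V) - ρ`.

Proof: the residue class of coefficient vectors of the starting result exists for a modulus `Q` all of
whose prime factors are large, so prime to `M`, and almost surely the orbits of all `v` are equidistributed
modulo all `Q` prime to `M`: ergodic theorem for random walks on finite groups (starting library,
`Pool.Agent.N24.RW`) for the group of affine permutations (`Run7.h972.AW`).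
-/

set_option autoImplicit false

namespace Pool.Agent.Results.MP_dd1803_nt.RandomAffineOrbits

open MvPolynomial Pool.Agent.W282.ZP MeasureTheory
open Pool.Agent.Results.MP_dd1803_nt.RandomMaps
open Pool.Agent.Results.MP_dd1803_nt.RandomOrbits (exists_good_class Simultaneous)
open Pool.Agent.N24.RW (words)
open Run7.h972.AW

/-- For every family of affine maps as above the random orbits of all vectors have almost surely the
property `P`. -/
def AlmostAllAffineOrbits {ι : Type} [Fintype ι] [DecidableEq ι] (P : (ℕ → ι → ℤ) → Prop) : Prop :=
  ∀ W : AffineWalk ι, ∀ᵐ w ∂(words W.m), ∀ v : ι → ℤ, P (fun t => aorb W v w t)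

theorem result {n : ℕ} (q : Fin n → ℕ) (k m : ℕ)
    (D : Ind q k → ℕ) (hD : ∀ i, 0 < D i)
    (hDq : ∀ j : (i : Fin n) × Fin (q i), q j.1 ≤ D (Sum.inl j)) :
    AlmostAllAffineOrbits (ι := Fin m × Fin 2 × ((i : Ind q k) → Fin (D i + 1))) Simultaneous := by
  classical
  intro W
  filter_upwards [pos_all W] with w hw v A B V hV
  obtain ⟨Q, G, hQ, hQp, hG, hmain⟩ := exists_good_class A B q k m V hV D hD hDq W.M
  obtain ⟨δ, hδ, h⟩ := hw v Q hQ
    (Nat.coprime_of_dvd fun ℓ h1 h2 h3 => absurd (Nat.le_of_dvd W.pos h3) (not_le.2 (hQp ℓ h1 h2))) G
  refine ⟨δ, hδ, ?_⟩
  filter_upwards [h] with N hN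
  refine hN.trans ?_
  have h1 : {t : ℕ | t < N ∧ ∀ i, (Q : ℤ) ∣ aorb W v w t i - G i}.ncard ≤
      {t : ℕ | t < N ∧ NoAtypical (A := A) (B := B) (pullback (aorb W v w t) V) m
          (zdim V)}.ncard :=
    Set.ncard_le_ncard (fun t ht => ⟨ht.1, hmain _ ht.2⟩)
      ((Set.finite_Iio N).subset fun t ht => ht.1)
  exact_mod_cast h1

end Pool.Agent.Results.MP_dd1803_nt.RandomAffineOrbits
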