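import Pool.Agent.Run7.h866.ZP.Val

/-!
# MP_dd1803_nt: Zilber-Pink in `Y(1)^n × G_m^k` for all but finitely many members of arbitrary
one-parameter families, with the values of a rational function as parameters

`Y(1)^n` is identified with `ℂ^n` by the elliptic modular function `jj = j = E₄³ / Δ`. The cases (a), for
the torus `G_m^k`, and (b) of the problem are the cases `n = 0` and `k = 0` of the following theorem on
the mixed Shimura variety `Y(1)^n × G_m^k`.

**Families.** Let `K ⊂ ℂ` be a countable field and let `P` be an arbitrary finite system of polynomials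
with coefficients in `K[t]`, in `n` modular coordinates, `k` torus coordinates and `N` auxiliary
coordinates. The member `X_t` (`member`) is the set of the points `x` of `Y(1)^n × G_m^k` for which
there is a `y ∈ ℂ^N` such that all polynomials of the system vanish at `(x, y)`, for the given `t`.
So `(X_t)` can be any one-parameter family of subvarieties, or of their images under algebraic maps or
correspondences.

**Tropicalization.** For `α ∈ ℂ` the set `Trop α P` consists of the points `w` of `(ℚ ∪ {∞})^(n+k+N)`
such that for every polynomial of the system the minimum of the numbers `ord_α (coefficient) + β · w`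
(over the exponents `β` of its monomials) is attained at two different exponents or is infinite.

**Types of special subvarieties.** The product `Z × C` of a special subvariety `Z` of `Y(1)^n` and a
coset `C` of an algebraic subgroup of the torus has a type `(cls, d, L)`: the partition `cls` of the
coordinates of `Y(1)^n` which are not constant on `Z` into `r = dim Z` classes, the determinants
`d_i > 0` of the matrices which define `Z`, and the linear subspace `L` of `ℚ^k`, of dimension `dim C`,
which is orthogonal to the characters constant on `C`. A point `w` is compatible with the type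
(`Compatible`) if `w_i ≥ 0` for the constant coordinates, for coordinates `i`, `j` in the same class
either `w_i ≥ 0` and `w_j ≥ 0`, or `w_i < 0`, `w_j < 0` and `d_i d_j w_i w_j` is the square of a rational
number, and the torus coordinates of `w` are a vector in `L`.

**Parameters.** Let `ψ = p / q` be a rational function whose coefficients are algebraic over `K`, and
let `S` be a set of numbers. The parameters are the values `t = ψ(s)`, `s ∈ S`.

**Theorem.** Let `m` be an integer (the dimension of the members) and `D` a finite set of numbers
algebraic over `K`. We assume that for every type of dimension `r + dim L < n + k - m` there is a set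
`I ⊆ D` such that `Trop α P` contains no compatible point for all `α ∈ I`, and such that there are at
least `σ` numbers `β` (algebraic over `K`) with `ψ(β) ∈ I`. Then for all but finitely many `t ∈ ψ(S)` the
member `X_t` has no atypical intersection with the products `Z × C` (`NoAtypical`), that is, every
irreducible closed subset of `X_t ∩ (Z × C)` has dimension at most `dim (Z × C) + m - (n + k)`, and the
same bound holds for the transcendence degrees of the points of `X_t ∩ (Z × C)` over `K`,
1. if `σ = 3` and `S` is a finitely generated field of numbers algebraic over `K`,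
2. if `σ = 2` and `S` is a finitely generated ring of numbers algebraic over `K`,
3. if `S` is the group of units of such a ring, and for every type there is an `α = ψ(β) ∈ D`, `β ≠ 0`,
   such that `Trop α P` contains no compatible point.

The constant coordinates of `Z` can be special points or integral over the ring `ℤ[Γ]` generated by a
given finite set `Γ` of numbers algebraic over `K`, and `C` is a coset by a point whose coordinates
are units over `ℤ[Γ]`, for instance a torsion coset.

So for the parameters in `ψ(S)` fewer degenerate parameters are necessary than for all elements of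
`S` (`ψ = X`; this case is the theorem `familyT` of the starting helper file `Pool.Agent.R424.TG.Main`).
For instance for the cubes of the elements of a finitely generated field, and for the squares of the
elements of a finitely generated ring, one degenerate parameter `α ≠ 0` is sufficient, and for the
values at units of an arbitrary rational function `ψ` one `α ∈ ψ(ℂ^×)` is sufficient.

The proof: a number `s` which is near to a preimage `β` of `α`, at a place at which `β`, the
coefficients and `q(β)⁻¹` are integral, has a value near to `α`. By the unit equation in finitely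
generated rings all but finitely many `s ∈ S` are near to one of `σ` given numbers.
-/

set_option autoImplicit false

namespace Pool.Agent.Results.MP_dd1803_nt.ValuesOfRationalFunctions

open MvPolynomial Pool.Agent.R424.TG
open Pool.Agent.Y152.RP.FamM (NoAtypical)

/-- `t` is the value of the rational function `p / q` at `s`, which is not a pole. -/
def IsValue (p q : Polynomial ℂ) (s t : ℂ) : Prop :=
  q.eval s ≠ 0 ∧ t * q.eval s = p.eval s

/-- For every type `(cls, d, L)` of special subvarieties of dimension less than `n + k - m` there is a
subset `I` of `D`, and a set `J` of numbers `β` (algebraic over `K`) with values `(p / q) (β) ∈ I` and with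
the property `large J`, such that the tropicalizations at the elements of `I` have no compatible
point. -/
def GenericValues {K : Subfield ℂ} {n k N : ℕ} {κ : Type} (p q : Polynomial ℂ)
    (large : Finset ℂ → Prop) (m : ℕ)
    (P : κ → MvPolynomial ((Fin n ⊕ Fin k) ⊕ Fin N) (Polynomial K)) (D : Finset ℂ) : Prop :=
  ∀ (r : ℕ) (cls : Fin n → Option (Fin r)) (d : Fin n → ℕ) (L : Submodule ℚ (Fin k → ℚ)),
    (∀ i, 0 < d i) → r + Module.finrank ℚ L + m < n + k →
      ∃ I ⊆ D, (∃ J : Finset ℂ, large J ∧ ∀ β ∈ J, IsAlgebraic K β ∧ ∃ α ∈ I, IsValue p q β α) ∧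
        ∀ α ∈ I, ∀ w ∈ Trop α P, ¬ Compatible cls d L w

/-- **The tropical criterion** for all but finitely many members, with values of a rational function as
parameters, of arbitrary one-parameter families of subvarieties of `Y(1)^n × G_m^k`. -/
theorem result (K : Subfield ℂ) [Countable K] (κ : Type) [Finite κ] (n k N m : ℕ)
    (P : κ → MvPolynomial ((Fin n ⊕ Fin k) ⊕ Fin N) (Polynomial K)) (D : Finset ℂ)
    (hD : ∀ α ∈ D, IsAlgebraic K α) (Γ : Finset ℂ) (hΓ : ∀ γ ∈ Γ, IsAlgebraic K γ)
    (p q : Polynomial ℂ) (hp : ∀ j, IsAlgebraic K (p.coeff j))
    (hq : ∀ j, IsAlgebraic K (q.coeff j)) (F : Finset ℂ) (hF : ∀ z ∈ F, IsAlgebraic K z) :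
    (GenericValues p q (fun J => 3 ≤ J.card) m P D →
      {t : ℂ | (∃ s ∈ Subfield.closure (F : Set ℂ), IsValue p q s t) ∧
        ¬ NoAtypical (algebraMap (Algebra.adjoin ℤ (Γ : Set ℂ)) ℂ) K m (member t P)}.Finite) ∧
    (GenericValues p q (fun J => 2 ≤ J.card) m P D →
      {t : ℂ | (∃ s ∈ Subring.closure (F : Set ℂ), IsValue p q s t) ∧
        ¬ NoAtypical (algebraMap (Algebra.adjoin ℤ (Γ : Set ℂ)) ℂ) K m (member t P)}.Finite) ∧
    (GenericValues p q (fun J => ∃ β ∈ J, β ≠ 0) m P D →
      {t : ℂ | (∃ s ∈ Subring.closure (F : Set ℂ), s ≠ 0 ∧ s⁻¹ ∈ Subring.closure (F : Set ℂ) ∧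
          IsValue p q s t) ∧
        ¬ NoAtypical (algebraMap (Algebra.adjoin ℤ (Γ : Set ℂ)) ℂ) K m
          (member t P)}.Finite) := by
  refine ⟨fun hgen => ?_, fun hgen => ?_, fun hgen => ?_⟩
  · refine Pool.Agent.Run7.h866.ZP.family K κ n k N m P D hD Γ hΓ
      {t : ℂ | ∃ s ∈ Subfield.closure (F : Set ℂ), IsValue p q s t} fun r cls d L hd hr => ?_
    obtain ⟨I, hI, ⟨J, hJ, hJI⟩, hno⟩ := hgen r cls d L hd hr
    exact ⟨I, hI, Pool.Agent.Run7.h866.ZP.hits_value hp hq hJI
      (Pool.Agent.Run7.h866.ZP.hits_field F hF J (fun β hβ => (hJI β hβ).1) hJ), hno⟩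
  · refine Pool.Agent.Run7.h866.ZP.family K κ n k N m P D hD Γ hΓ
      {t : ℂ | ∃ s ∈ Subring.closure (F : Set ℂ), IsValue p q s t} fun r cls d L hd hr => ?_
    obtain ⟨I, hI, ⟨J, hJ, hJI⟩, hno⟩ := hgen r cls d L hd hr
    exact ⟨I, hI, Pool.Agent.Run7.h866.ZP.hits_value hp hq hJI
      (Pool.Agent.Run7.h866.ZP.hits_ring F hF J (fun β hβ => (hJI β hβ).1) hJ), hno⟩
  · refine Pool.Agent.Run7.h866.ZP.family K κ n k N m P D hD Γ hΓ
      {t : ℂ | ∃ s ∈ Subring.closure (F : Set ℂ), s ≠ 0 ∧ s⁻¹ ∈ Subring.closure (F : Set ℂ) ∧
        IsValue p q s t} fun r cls d L hd hr => ?_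
    obtain ⟨I, hI, ⟨J, hJ, hJI⟩, hno⟩ := hgen r cls d L hd hr
    refine ⟨I, hI, (Pool.Agent.Run7.h866.ZP.hits_value hp hq hJI
      (Pool.Agent.Run7.h866.ZP.hits_units F hF J (fun β hβ => (hJI β hβ).1) hJ)).mono ?_
      subset_rfl, hno⟩
    rintro t ⟨s, h1, h2, h3, h4⟩
    exact ⟨s, ⟨h1, h2, h3⟩, h4⟩

end Pool.Agent.Results.MP_dd1803_nt.ValuesOfRationalFunctions
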